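import Pool.Agent.helper65.GD.SpecE

/-!
# MP_ea335c_an, row NUE
-/

set_option autoImplicit false

namespace Pool.Agent.GD

open Finset Metric Filter Topology

theorem NUE_A (p n j : ℕ) (h2 : j ≤ p) (h3 : p < n) : 0 ≤ AA p n j := by
  unfold AA
  have h4 : (j : ℝ) ≤ n := by
    have : j ≤ n := by omega
    exact_mod_cast this
  have h5 : (j : ℝ) ^ 2 ≤ (n : ℝ) ^ 2 := pow_le_pow_left₀ (Nat.cast_nonneg j) h4 2
  apply div_nonneg
  · positivity
  · apply mul_nonneg
    · positivity
    · linarith

theorem NUE_B (p n j : ℕ) (h2 : j ≤ p) (h3 : p < n) : 0 ≤ BB p n j := by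
  unfold BB
  have h1 := NUE_A p n j h2 h3
  have h4 : 0 ≤ ∑ q ∈ Ioc j p, AA p n q := by
    refine Finset.sum_nonneg fun q hq => ?_
    rw [Finset.mem_Ioc] at hq
    exact NUE_A p n q hq.2 h3
  linarith

theorem NUE (hNUB : NUB_stmt) (hNUC : NUC_stmt) : NUE_stmt := by
  intro p n j h1 h2 h3
  refine ⟨?_, NUE_A p n j h2 h3, NUE_B p n j h2 h3, ?_⟩
  all_goals
    have key : 0 ≤ n * AA p n j - j * BB p n j ∧
        (n * AA p n j - j * BB p n j) ^ 2 =
          4 * (j : ℝ) ^ 2 + 4 * ∑ m ∈ Ioo p n, (m * AA p m j) * (j * BB p m j) := by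
      induction n, (show p + 1 ≤ n from h3) using Nat.le_induction with
      | base =>
        have h4 := hNUC p j h1 h2
        have h5 : Ioo p (p + 1) = ∅ := by
          ext m
          simp only [Finset.mem_Ioo, Finset.notMem_empty, iff_false]
          omega
        rw [h5, Finset.sum_empty]
        push_cast
        rw [h4]
        constructor
        · positivity
        · ring
      | succ n hn ih =>
        obtain ⟨i1, i2⟩ := ih (by omega)
        have h4 := hNUB p n j h1 h2 (by omega)
        have h5 : Ioo p (n + 1) = insert n (Ioo p n) := by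
          ext m
          simp only [Finset.mem_Ioo, Finset.mem_insert]
          omega
        have h6 : (((n + 1 : ℕ) : ℝ)) * AA p (n + 1) j - j * BB p (n + 1) j =
            (n * AA p n j - j * BB p n j) + 2 * (j * BB p n j) := by
          push_cast
          linarith
        rw [h6, h5, Finset.sum_insert (by simp)]
        have h7 := NUE_B p n j h2 (by omega)
        constructor
        · have : 0 ≤ (j : ℝ) * BB p n j := by positivity
          linarith
        · have h8 : ((n * AA p n j - j * BB p n j) + 2 * (j * BB p n j)) ^ 2 =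
              (n * AA p n j - j * BB p n j) ^ 2 + 4 * ((n * AA p n j) * (j * BB p n j)) := by ring
          rw [h8, i2]
          ring
  · exact key.1
  · exact key.2

end Pool.Agent.GD
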