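import Pool.Agent.helper65.GD.Spec

set_option autoImplicit false

/-!
# Row ACZ: the inequalities of Cauchy-Schwarz and Aczel
-/

namespace Pool.Agent.GD

theorem ACZ : ACZ_stmt := by
  intro N w u v A B p κ c C K L hw hp hκ hK hL hA hB hu hv hKL
  have a0 : 0 ≤ ‖A‖ := norm_nonneg A
  have b0 : 0 ≤ ‖B‖ := norm_nonneg B
  have c0 : 0 ≤ c := a0.trans hA
  have C0 : 0 ≤ C := b0.trans hB
  set X : ℝ := ∑ l, w l * ‖u l‖ ^ 2 with hX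
  set Y : ℝ := ∑ l, w l * ‖v l‖ ^ 2 with hY
  set S : ℝ := ∑ l, w l * (‖u l‖ * ‖v l‖) with hS
  have X0 : 0 ≤ X := Finset.sum_nonneg fun l _ => mul_nonneg (hw l) (sq_nonneg _)
  have Y0 : 0 ≤ Y := Finset.sum_nonneg fun l _ => mul_nonneg (hw l) (sq_nonneg _)
  have S0 : 0 ≤ S := Finset.sum_nonneg fun l _ =>
    mul_nonneg (hw l) (mul_nonneg (norm_nonneg _) (norm_nonneg _))
  have hCS : S ^ 2 ≤ X * Y := by
    have h1 := Finset.sum_mul_sq_le_sq_mul_sq Finset.univ (fun l => Real.sqrt (w l) * ‖u l‖)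
      (fun l => Real.sqrt (w l) * ‖v l‖)
    have e1 : ∑ l, (Real.sqrt (w l) * ‖u l‖) * (Real.sqrt (w l) * ‖v l‖) = S := by
      refine Finset.sum_congr rfl fun l _ => ?_
      have := Real.mul_self_sqrt (hw l)
      calc (Real.sqrt (w l) * ‖u l‖) * (Real.sqrt (w l) * ‖v l‖)
          = (Real.sqrt (w l) * Real.sqrt (w l)) * (‖u l‖ * ‖v l‖) := by ring
        _ = w l * (‖u l‖ * ‖v l‖) := by rw [this]
    have e2 : ∑ l, (Real.sqrt (w l) * ‖u l‖) ^ 2 = X := by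
      refine Finset.sum_congr rfl fun l _ => ?_
      rw [mul_pow, Real.sq_sqrt (hw l)]
    have e3 : ∑ l, (Real.sqrt (w l) * ‖v l‖) ^ 2 = Y := by
      refine Finset.sum_congr rfl fun l _ => ?_
      rw [mul_pow, Real.sq_sqrt (hw l)]
    rw [e1, e2, e3] at h1
    exact h1
  have hn : ‖∑ l, (w l : ℂ) * (u l * v l)‖ ≤ S := by
    refine (norm_sum_le _ _).trans (Finset.sum_le_sum fun l _ => ?_)
    rw [norm_mul, norm_mul, Complex.norm_real, Real.norm_of_nonneg (hw l)]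
  have d1 : 0 ≤ c ^ 2 - ‖A‖ ^ 2 := by nlinarith
  have d2 : 0 ≤ C ^ 2 - ‖B‖ ^ 2 := by nlinarith
  have hab : ‖A‖ * ‖B‖ ≤ c * C := mul_le_mul hA hB b0 c0
  have haczel : (c ^ 2 - ‖A‖ ^ 2) * (C ^ 2 - ‖B‖ ^ 2) ≤ (c * C - ‖A‖ * ‖B‖) ^ 2 := by
    nlinarith [sq_nonneg (c * ‖B‖ - C * ‖A‖)]
  have hmain : (p * S) ^ 2 ≤ (κ * (c * C - ‖A‖ * ‖B‖)) ^ 2 := by
    calc (p * S) ^ 2 = p ^ 2 * S ^ 2 := by ring
      _ ≤ p ^ 2 * (X * Y) := mul_le_mul_of_nonneg_left hCS (sq_nonneg p)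
      _ ≤ p ^ 2 * ((K * (c ^ 2 - ‖A‖ ^ 2)) * (L * (C ^ 2 - ‖B‖ ^ 2))) :=
          mul_le_mul_of_nonneg_left (mul_le_mul hu hv Y0 (mul_nonneg hK d1)) (sq_nonneg p)
      _ = (p ^ 2 * (K * L)) * ((c ^ 2 - ‖A‖ ^ 2) * (C ^ 2 - ‖B‖ ^ 2)) := by ring
      _ ≤ κ ^ 2 * ((c ^ 2 - ‖A‖ ^ 2) * (C ^ 2 - ‖B‖ ^ 2)) :=
          mul_le_mul_of_nonneg_right hKL (mul_nonneg d1 d2)
      _ ≤ κ ^ 2 * (c * C - ‖A‖ * ‖B‖) ^ 2 := mul_le_mul_of_nonneg_left haczel (sq_nonneg κ)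
      _ = (κ * (c * C - ‖A‖ * ‖B‖)) ^ 2 := by ring
  have hpS : p * S ≤ κ * (c * C - ‖A‖ * ‖B‖) :=
    (le_abs_self _).trans (abs_le_of_sq_le_sq hmain (mul_nonneg hκ (by linarith)))
  calc ‖(p : ℂ) * ∑ l, (w l : ℂ) * (u l * v l) + (κ : ℂ) * (A * B)‖
      ≤ ‖(p : ℂ) * ∑ l, (w l : ℂ) * (u l * v l)‖ + ‖(κ : ℂ) * (A * B)‖ := norm_add_le _ _
    _ = p * ‖∑ l, (w l : ℂ) * (u l * v l)‖ + κ * (‖A‖ * ‖B‖) := by
        rw [norm_mul, norm_mul, norm_mul, Complex.norm_real, Complex.norm_real,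
          Real.norm_of_nonneg hp, Real.norm_of_nonneg hκ]
    _ ≤ p * S + κ * (‖A‖ * ‖B‖) := by
        have := mul_le_mul_of_nonneg_left hn hp
        linarith
    _ ≤ κ * (c * C - ‖A‖ * ‖B‖) + κ * (‖A‖ * ‖B‖) := by linarith
    _ = κ * (c * C) := by ring

end Pool.Agent.GD
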